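import Pool.Agent.Helper41.GM.Mix

/-!
# Codes whose words stay far from each other when they are shifted
-/

set_option autoImplicit false

open Finset

namespace Pool.Agent.Helper41.GM

/-- `r ^ r ≤ 3 ^ r * r!`. -/
theorem self_pow_le (r : ℕ) : r ^ r ≤ 3 ^ r * r.factorial := by
  have h1 : ((r : ℝ) ^ r) / (r.factorial : ℝ) ≤ Real.exp r :=
    Real.pow_div_factorial_le_exp (r : ℝ) (Nat.cast_nonneg r) r
  have h2 : Real.exp r ≤ 3 ^ r := by
    have : Real.exp (r : ℝ) = Real.exp 1 ^ r := by
      rw [← Real.exp_nat_mul, mul_one]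
    rw [this]
    exact pow_le_pow_left₀ (Real.exp_pos 1).le (by linarith [Real.exp_one_lt_d9]) r
  have h3 : (0 : ℝ) < (r.factorial : ℝ) := by exact_mod_cast Nat.factorial_pos r
  have h4 : ((r : ℝ) ^ r) ≤ 3 ^ r * (r.factorial : ℝ) := by
    rw [div_le_iff₀ h3] at h1
    exact h1.trans (mul_le_mul_of_nonneg_right h2 h3.le)
  exact_mod_cast h4

/-- A bound for binomial coefficients. -/
theorem choose_le_pow_of_le {n r K : ℕ} (hr : 1 ≤ r) (h : n ≤ K * r) :
    n.choose r ≤ (3 * K) ^ r := by
  have h1 : r ^ r * n.choose r ≤ r ^ r * (3 * K) ^ r := by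
    calc r ^ r * n.choose r ≤ (3 ^ r * r.factorial) * n.choose r :=
          Nat.mul_le_mul_right _ (self_pow_le r)
      _ = 3 ^ r * n.descFactorial r := by rw [Nat.descFactorial_eq_factorial_mul_choose, mul_assoc]
      _ ≤ 3 ^ r * n ^ r := Nat.mul_le_mul_left _ (Nat.descFactorial_le_pow n r)
      _ ≤ 3 ^ r * (K * r) ^ r := Nat.mul_le_mul_left _ (Nat.pow_le_pow_left h r)
      _ = r ^ r * (3 * K) ^ r := by
          rw [mul_pow, mul_pow]
          ring
  exact Nat.le_of_mul_le_mul_left h1 (by positivity)

variable {V G : Type} [Fintype V] [DecidableEq V] [AddCommGroup G] [Fintype G] [DecidableEq G]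

/-- The number of words with prescribed values on `Y`. -/
theorem card_fixed (f : V → G) (Y : Finset V) :
    (univ.filter (fun g : V → G => ∀ v ∈ Y, g v = f v)).card =
      Fintype.card G ^ (Fintype.card V - Y.card) := by
  classical
  have h1 : univ.filter (fun g : V → G => ∀ v ∈ Y, g v = f v) =
      Fintype.piFinset (fun v => if v ∈ Y then ({f v} : Finset G) else univ) := by
    ext g
    rw [mem_filter, Fintype.mem_piFinset]
    refine ⟨fun h x => ?_, fun h => ⟨mem_univ _, fun x hx => ?_⟩⟩
    · by_cases hx : x ∈ Y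
      · rw [if_pos hx, mem_singleton]
        exact h.2 x hx
      · rw [if_neg hx]
        exact mem_univ _
    · have := h x
      rw [if_pos hx, mem_singleton] at this
      exact this
  have h2 : ∀ x, (if x ∈ Y then ({f x} : Finset G) else univ).card =
      if x ∈ Y then 1 else Fintype.card G := by
    intro x
    split_ifs
    · exact card_singleton _
    · rw [card_univ]
  rw [h1, Fintype.card_piFinset, prod_congr rfl fun x _ => h2 x, prod_ite, prod_const_one, one_mul,
    prod_const]
  congr 1
  have h3 : univ.filter (fun x => x ∉ Y) = Yᶜ := by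
    ext x
    simp
  rw [h3, card_compl]

/-- A large code. -/
theorem exists_far_code (D : ℕ) (hD : D + 1 ≤ Fintype.card V) :
    ∃ C : Finset (V → G), (∀ f ∈ C, ∀ g ∈ C, f ≠ g → ∀ c, (shf f g c).card ≤ D) ∧
      Fintype.card G ^ Fintype.card V ≤ C.card * (Fintype.card G *
        ((Fintype.card V).choose (D + 1) * Fintype.card G ^ (Fintype.card V - (D + 1)))) := by
  classical
  obtain ⟨C, hC, hmax⟩ := exists_max_image (univ.filter
      (fun C : Finset (V → G) => ∀ f ∈ C, ∀ g ∈ C, f ≠ g → ∀ c, (shf f g c).card ≤ D)) card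
    ⟨∅, mem_filter.2 ⟨mem_univ _, fun f hf => absurd hf (notMem_empty f)⟩⟩
  rw [mem_filter] at hC
  refine ⟨C, hC.2, ?_⟩
  have hsymm : ∀ (f g : V → G) (c : G), shf f g c = shf g f (-c) := by
    intro f g c
    ext v
    rw [mem_shf, mem_shf]
    constructor
    · intro h
      rw [← h]
      abel
    · intro h
      have : f v - g v = -(g v - f v) := by abel
      rw [this, h, neg_neg]
  have hcov : (univ : Finset (V → G)) ⊆ C.biUnion (fun f => univ.biUnion (fun c =>
      (powersetCard (D + 1) (univ : Finset V)).biUnion (fun Y =>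
        univ.filter (fun g : V → G => ∀ v ∈ Y, g v = f v + c)))) := by
    intro g _
    -- a close code word
    obtain ⟨f, hf, c, hc⟩ : ∃ f ∈ C, ∃ c, D + 1 ≤ (shf g f c).card := by
      by_cases hg : g ∈ C
      · refine ⟨g, hg, 0, ?_⟩
        have : shf g g 0 = univ := by
          ext v
          simp [mem_shf]
        rw [this, card_univ]
        exact hD
      by_contra hcon
      push Not at hcon
      have h := hmax (insert g C) (by
        rw [mem_filter]
        refine ⟨mem_univ _, fun f hf f' hf' hne c => ?_⟩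
        rw [mem_insert] at hf hf'
        rcases hf with rfl | hf
        · rcases hf' with rfl | hf'
          · exact absurd rfl hne
          · exact Nat.lt_succ_iff.1 (hcon f' hf' c)
        · rcases hf' with rfl | hf'
          · rw [hsymm]
            exact Nat.lt_succ_iff.1 (hcon f hf (-c))
          · exact hC.2 f hf f' hf' hne c)
      rw [card_insert_of_notMem hg] at h
      omega
    obtain ⟨Y, hY, hYc⟩ := exists_subset_card_eq hc
    rw [mem_biUnion]
    refine ⟨f, hf, ?_⟩
    rw [mem_biUnion]
    refine ⟨c, mem_univ _, ?_⟩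
    rw [mem_biUnion]
    refine ⟨Y, mem_powersetCard.2 ⟨subset_univ _, hYc⟩, ?_⟩
    rw [mem_filter]
    refine ⟨mem_univ _, fun v hv => ?_⟩
    have := mem_shf.1 (hY hv)
    rw [← this]
    abel
  have h1 := card_le_card hcov
  rw [card_univ, Fintype.card_fun] at h1
  refine h1.trans (card_biUnion_le.trans ?_)
  rw [← smul_eq_mul C.card]
  refine sum_le_card_nsmul _ _ _ fun f _ => ?_
  refine card_biUnion_le.trans ?_
  rw [← smul_eq_mul (Fintype.card G), ← card_univ (α := G)]
  refine sum_le_card_nsmul _ _ _ fun c _ => ?_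
  refine card_biUnion_le.trans ?_
  have h2 : (powersetCard (D + 1) (univ : Finset V)).card = (Fintype.card V).choose (D + 1) := by
    rw [card_powersetCard, card_univ]
  rw [← h2, ← smul_eq_mul (powersetCard (D + 1) (univ : Finset V)).card, card_univ]
  refine sum_le_card_nsmul _ _ _ fun Y hY => ?_
  rw [card_fixed (fun v => f v + c) Y, (mem_powersetCard.1 hY).2]

end Pool.Agent.Helper41.GM
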