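import Pool.Agent.Helper41.PM.Walks

/-!
# The nondeterministic read-once branching program that guesses a witness and checks all variables
-/

set_option autoImplicit false

open Finset

namespace Pool.Agent.Helper41.GM

open Pool.Agent.Helper41.PM

variable {X Al G : Type} {N : ℕ}

/-- The edges of the program that guesses a witness `g` and checks all variables. -/
def guessEdge (chk : G → X → Al → Prop) (e : Fin N → X) :
    (Bool ⊕ (G × Fin (N + 1))) → (Bool ⊕ (G × Fin (N + 1))) → Option (X × Al) → Prop
  | .inl false, .inr (_, i), none => i.val = 0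
  | .inr (_, i), .inl true, none => i.val = N
  | .inr (g, i), .inr (g', j), some (x, b) => g = g' ∧ ∃ hi : i.val < N, j.val = i.val + 1 ∧
      x = e ⟨i.val, hi⟩ ∧ chk g x b
  | _, _, _ => False

/-- The program that guesses a witness `g` and checks all variables. -/
def guess (chk : G → X → Al → Prop) (e : Fin N → X) :
    NBP X Al (Bool ⊕ (G × Fin (N + 1))) where
  edge := guessEdge chk e
  src := .inl false
  snk := .inl true

theorem edge_eq (chk : G → X → Al → Prop) (e : Fin N → X) :
    (guess chk e).edge = guessEdge chk e := rfl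

/-- The tests of a walk that starts at position `i` of the branch of `g`. -/
def Good (chk : G → X → Al → Prop) (e : Fin N → X) (g : G) (i : ℕ) (l : List (X × Al)) : Prop :=
  l.map Prod.fst = ((List.finRange N).drop i).map e ∧ ∀ q ∈ l, chk g q.1 q.2

/-- The tests of a walk to the accepting node. -/
def Inv (chk : G → X → Al → Prop) (e : Fin N → X) (l : List (X × Al)) :
    (Bool ⊕ (G × Fin (N + 1))) → Prop
  | .inl false => ∃ g, Good chk e g 0 l
  | .inl true => l = []
  | .inr (g, i) => Good chk e g i.val l

theorem inv (chk : G → X → Al → Prop) (e : Fin N → X)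
    {u v : Bool ⊕ (G × Fin (N + 1))} {l : List (X × Al)}
    (h : Walk (guess chk e) u v l) : v = .inl true → Inv chk e l u := by
  induction h with
  | nil v =>
    rintro rfl
    rfl
  | @free u v w l he hw ih =>
    intro hv
    have h1 := ih hv
    change guessEdge chk e u v none at he
    rcases u with (_ | _) | ⟨g, i⟩ <;> rcases v with (_ | _) | ⟨g', j⟩
    all_goals first
      | (simp [guessEdge] at he; done)
      | skip
    · have hj : j.val = 0 := he
      refine ⟨g', ?_⟩
      have h2 : Good chk e g' j.val l := h1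
      rw [hj] at h2
      exact h2
    · have hi : i.val = N := he
      have h2 : l = [] := h1
      show Good chk e g i.val l
      rw [h2, hi]
      refine ⟨?_, fun q hq => absurd hq List.not_mem_nil⟩
      rw [List.drop_eq_nil_of_le (by rw [List.length_finRange])]
      rfl
  | @test u v w l q he hw ih =>
    intro hv
    have h1 := ih hv
    change guessEdge chk e u v (some q) at he
    obtain ⟨x, b⟩ := q
    rcases u with (_ | _) | ⟨g, i⟩ <;> rcases v with (_ | _) | ⟨g', j⟩
    all_goals first
      | (simp [guessEdge] at he; done)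
      | skip
    obtain ⟨hg, hi, hj, hx, hb⟩ : g = g' ∧ ∃ hi : i.val < N, j.val = i.val + 1 ∧
      x = e ⟨i.val, hi⟩ ∧ chk g x b := he
    subst hg
    have h2 : Good chk e g j.val l := h1
    rw [hj] at h2
    show Good chk e g i.val ((x, b) :: l)
    refine ⟨?_, fun q hq => ?_⟩
    · have h3 := List.drop_eq_getElem_cons (l := List.finRange N) (i := i.val)
        (by rw [List.length_finRange]; exact hi)
      rw [List.map_cons, h2.1, h3, List.map_cons, List.getElem_finRange]
      simp only [hx]
      rfl
    · rw [List.mem_cons] at hq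
      rcases hq with rfl | hq
      · exact hb
      · exact h2.2 q hq

theorem guess_readOnce (chk : G → X → Al → Prop) (e : Fin N → X) (he : Function.Injective e) :
    (guess chk e).ReadOnce := by
  intro l hl
  obtain ⟨g, h1, -⟩ := inv chk e hl rfl
  rw [h1, List.drop_zero]
  exact (List.nodup_finRange N).map he

theorem guess_walk (chk : G → X → Al → Prop) (e : Fin N → X) (g : G)
    (T : X → Al) (hT : ∀ x, chk g x (T x)) : ∀ m, m ≤ N →
    ∃ (i : Fin (N + 1)) (l : List (X × Al)), i.val = N - m ∧
      Walk (guess chk e) (.inr (g, i)) (.inl true) l ∧ ∀ q ∈ l, T q.1 = q.2 := by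
  intro m
  induction m with
  | zero =>
    intro _
    refine ⟨⟨N, by omega⟩, [], rfl, ?_, fun q hq => absurd hq List.not_mem_nil⟩
    refine Walk.free (v := .inl true) ?_ (Walk.nil _)
    rw [edge_eq]
    show N = N
    rfl
  | succ m ih =>
    intro hm
    obtain ⟨i, l, hi, hw, hl⟩ := ih (by omega)
    have hlt : N - (m + 1) < N := by omega
    refine ⟨⟨N - (m + 1), by omega⟩, (e ⟨N - (m + 1), hlt⟩, T (e ⟨N - (m + 1), hlt⟩)) :: l, rfl,
      ?_, fun q hq => ?_⟩
    · refine Walk.test ?_ hw
      rw [edge_eq]
      exact ⟨rfl, hlt, by rw [hi]; show N - m = N - (m + 1) + 1; omega, rfl, hT _⟩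
    · rw [List.mem_cons] at hq
      rcases hq with rfl | hq
      · rfl
      · exact hl q hq

theorem guess_accepts (chk : G → X → Al → Prop) (e : Fin N → X) (he : Function.Surjective e)
    (T : X → Al) : (guess chk e).Accepts T ↔ ∃ g, ∀ x, chk g x (T x) := by
  constructor
  · rintro ⟨l, hl, hT⟩
    obtain ⟨g, h1, h2⟩ := inv chk e hl rfl
    refine ⟨g, fun x => ?_⟩
    obtain ⟨i, rfl⟩ := he x
    have h3 : e i ∈ l.map Prod.fst := by
      rw [h1, List.drop_zero]
      exact List.mem_map_of_mem (List.mem_finRange i)
    obtain ⟨q, hq, hqi⟩ := List.mem_map.1 h3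
    have h4 := hT q hq
    have h5 := h2 q hq
    rw [← h4, hqi] at h5
    exact h5
  · rintro ⟨g, hT⟩
    obtain ⟨i, l, hi, hw, hl⟩ := guess_walk chk e g T hT N le_rfl
    refine ⟨l, Walk.free (v := .inr (g, i)) ?_ hw, hl⟩
    rw [edge_eq]
    show i.val = 0
    omega

/-- The upper bound. -/
theorem exists_guess [Fintype X] [Fintype G] (chk : G → X → Al → Prop) :
    ∃ (V : Type) (_ : Fintype V) (B : NBP X Al V), B.ReadOnce ∧
      (∀ T, B.Accepts T ↔ ∃ g, ∀ x, chk g x (T x)) ∧
      Fintype.card V = 2 + Fintype.card G * (Fintype.card X + 1) := by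
  obtain ⟨e⟩ : Nonempty (Fin (Fintype.card X) ≃ X) := ⟨(Fintype.equivFin X).symm⟩
  refine ⟨_, inferInstance, guess chk e, guess_readOnce chk e e.injective,
    guess_accepts chk e e.surjective, ?_⟩
  rw [Fintype.card_sum, Fintype.card_prod, Fintype.card_bool, Fintype.card_fin]

end Pool.Agent.Helper41.GM
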