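import Mathlib

/-!
# Mixtures of linear games with planted labelings
-/

set_option autoImplicit false

open Finset

namespace Pool.Agent.Helper41.GM

/-- Large sets with small pairwise intersections have small total size. -/
theorem johnson {κ V : Type} [DecidableEq κ] [Fintype V] [DecidableEq V] (K : Finset κ)
    (U : κ → Finset V) (T D : ℕ) (hT : 1 ≤ T) (h1 : ∀ i ∈ K, Fintype.card V ≤ T * (U i).card)
    (h2 : ∀ i ∈ K, ∀ j ∈ K, i ≠ j → (U i ∩ U j).card ≤ D) (hD : 2 * T ^ 2 * D ≤ Fintype.card V) :
    ∑ i ∈ K, (U i).card ≤ 2 * Fintype.card V := by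
  set s := ∑ i ∈ K, (U i).card with hs
  set N := Fintype.card V with hN
  set m := K.card with hm
  set a : V → ℕ := fun v => ∑ i ∈ K, if v ∈ U i then 1 else 0 with ha
  have e1 : ∑ v, a v = s := by
    rw [ha, hs]
    simp only
    rw [sum_comm]
    refine sum_congr rfl fun i _ => ?_
    rw [← card_filter]
    congr 1
    ext v
    simp
  have e2 : ∑ v, a v ^ 2 = ∑ i ∈ K, ∑ j ∈ K, (U i ∩ U j).card := by
    have h3 : ∀ v, a v ^ 2 = ∑ i ∈ K, ∑ j ∈ K, if v ∈ U i ∩ U j then 1 else 0 := by
      intro v
      rw [pow_two, ha]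
      simp only
      rw [sum_mul_sum]
      refine sum_congr rfl fun i _ => sum_congr rfl fun j _ => ?_
      by_cases h : v ∈ U i <;> by_cases h' : v ∈ U j <;> simp [h, h']
    rw [sum_congr rfl fun v _ => h3 v, sum_comm]
    refine sum_congr rfl fun i _ => ?_
    rw [sum_comm]
    refine sum_congr rfl fun j _ => ?_
    rw [← card_filter]
    congr 1
    ext v
    simp
  have e3 : ∑ i ∈ K, ∑ j ∈ K, (U i ∩ U j).card ≤ s + m * m * D := by
    calc ∑ i ∈ K, ∑ j ∈ K, (U i ∩ U j).card
        ≤ ∑ i ∈ K, ∑ j ∈ K, ((if i = j then (U i).card else 0) + D) := by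
          refine sum_le_sum fun i hi => sum_le_sum fun j hj => ?_
          by_cases h : i = j
          · subst h
            rw [if_pos rfl, inter_self]
            omega
          · rw [if_neg h]
            have := h2 i hi j hj h
            omega
      _ = s + m * m * D := by
          have h3 : ∀ i ∈ K, ∑ j ∈ K, ((if i = j then (U i).card else 0) + D) =
              (U i).card + m * D := by
            intro i hi
            rw [sum_add_distrib, sum_ite_eq, if_pos hi, sum_const, smul_eq_mul]
          rw [sum_congr rfl h3, sum_add_distrib, sum_const, smul_eq_mul, ← hs, ← hm]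
          ring
  have e4 : s ^ 2 ≤ N * (s + m * m * D) := by
    have h3 := sq_sum_le_card_mul_sum_sq (s := (univ : Finset V)) (f := a)
    rw [e1, e2, card_univ] at h3
    exact h3.trans (Nat.mul_le_mul_left _ e3)
  have e5 : m * N ≤ T * s := by
    rw [hs, mul_sum, hm, ← smul_eq_mul, ← sum_const]
    exact sum_le_sum h1
  have e6 : 2 * (N * (m * m * D)) ≤ s ^ 2 := by
    have h3 : T ^ 2 * (2 * (N * (m * m * D))) ≤ T ^ 2 * s ^ 2 := by
      calc T ^ 2 * (2 * (N * (m * m * D))) = (2 * T ^ 2 * D) * (N * (m * m)) := by ring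
        _ ≤ N * (N * (m * m)) := Nat.mul_le_mul_right _ hD
        _ = (m * N) ^ 2 := by ring
        _ ≤ (T * s) ^ 2 := Nat.pow_le_pow_left e5 2
        _ = _ := by ring
    exact Nat.le_of_mul_le_mul_left h3 (by positivity)
  have e7 : s * s ≤ s * (2 * N) := by nlinarith
  rcases Nat.eq_zero_or_pos s with h | h
  · omega
  · exact Nat.le_of_mul_le_mul_left e7 h

theorem two_min {u w y z : ℕ} (h1 : z ≤ u * w) (h2 : z ≤ y ^ 2) : 2 * z ≤ y * (u + w) := by
  have h3 : (2 * z) ^ 2 ≤ (y * (u + w)) ^ 2 := by
    have h4 : z * z ≤ (u * w) * y ^ 2 := Nat.mul_le_mul h1 h2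
    have h5 : 4 * (u * w) ≤ (u + w) ^ 2 := by
      zify
      nlinarith [sq_nonneg ((u : ℤ) - w)]
    calc (2 * z) ^ 2 = 4 * (z * z) := by ring
      _ ≤ 4 * ((u * w) * y ^ 2) := Nat.mul_le_mul_left _ h4
      _ = (4 * (u * w)) * y ^ 2 := by ring
      _ ≤ (u + w) ^ 2 * y ^ 2 := Nat.mul_le_mul_right _ h5
      _ = _ := by ring
  exact (Nat.pow_le_pow_iff_left (by norm_num)).1 h3

theorem sum_mul_le {ι : Type} (s : Finset ι) (a b : ι → ℕ) :
    ∑ i ∈ s, a i * b i ≤ (∑ i ∈ s, a i) * ∑ i ∈ s, b i := by
  rw [sum_mul]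
  exact sum_le_sum fun i hi => Nat.mul_le_mul_left _ (single_le_sum (fun _ _ => Nat.zero_le _) hi)

variable {V G I : Type} [Fintype V] [DecidableEq V] [AddCommGroup G] [Fintype G] [DecidableEq G]
  [Fintype I] [DecidableEq I]

/-- The vertices where `A` is the shift of `f` by `c`. -/
def shf (A f : V → G) (c : G) : Finset V := univ.filter (fun v => A v - f v = c)

theorem mem_shf {A f : V → G} {c : G} {v : V} : v ∈ shf A f c ↔ A v - f v = c := by
  unfold shf
  simp

theorem sum_shf (A f : V → G) : ∑ c, (shf A f c).card = Fintype.card V := by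
  rw [← card_univ]
  exact (card_eq_sum_card_fiberwise fun _ _ => mem_univ _).symm

/-- A code whose words stay far from each other when they are shifted. -/
def Far (F : I → V → G) (D : ℕ) : Prop := ∀ i j, i ≠ j → ∀ c, (shf (F i) (F j) c).card ≤ D

theorem shf_inter {F : I → V → G} {D : ℕ} (hF : Far F D) (A : V → G) {p p' : I × G}
    (h : p ≠ p') : (shf A (F p.1) p.2 ∩ shf A (F p'.1) p'.2).card ≤ D := by
  by_cases hi : p.1 = p'.1
  · have hc : p.2 ≠ p'.2 := fun h' => h (Prod.ext hi h')
    have : shf A (F p.1) p.2 ∩ shf A (F p'.1) p'.2 = ∅ := by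
      rw [eq_empty_iff_forall_notMem]
      intro v hv
      rw [mem_inter, mem_shf, mem_shf, hi] at hv
      exact hc (hv.1.symm.trans hv.2)
    rw [this, card_empty]
    exact Nat.zero_le _
  · refine le_trans (card_le_card fun v hv => ?_) (hF p.1 p'.1 hi (p'.2 - p.2))
    rw [mem_inter, mem_shf, mem_shf] at hv
    rw [mem_shf, ← hv.1, ← hv.2]
    abel

/-- The satisfied edges of a mixture. -/
def sat (F : I → V → G) (p : V × V → I) (A b : V → G) : Finset (V × V) :=
  univ.filter (fun e => A e.1 - F (p e) e.1 = b e.2 - F (p e) e.2)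

/-- **Mixtures have small value.** -/
theorem card_sat (F : I → V → G) (p : V × V → I) (A b : V → G) {y T D : ℕ} (hT : 1 ≤ T)
    (hF : Far F D) (hD : 2 * T ^ 2 * D ≤ Fintype.card V)
    (hp : ∀ i, (univ.filter (fun e => p e = i)).card ≤ y ^ 2) :
    T * (sat F p A b).card ≤ T * (2 * Fintype.card V * y) +
      Fintype.card I * (2 * Fintype.card V ^ 2) := by
  classical
  set N := Fintype.card V with hN
  -- the satisfied edges of one part and one shift
  set E : I → G → Finset (V × V) := fun i c =>
    univ.filter (fun e => p e = i ∧ e.1 ∈ shf A (F i) c ∧ e.2 ∈ shf b (F i) c) with hE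
  set L : I → Finset G := fun i => univ.filter (fun c => N ≤ T * (shf A (F i) c).card ∧
    N ≤ T * (shf b (F i) c).card) with hL
  have hsat : (sat F p A b).card ≤ ∑ i, ∑ c, (E i c).card := by
    have h1 : sat F p A b ⊆ univ.biUnion (fun i => univ.biUnion (fun c => E i c)) := by
      intro e he
      unfold sat at he
      rw [mem_filter] at he
      rw [mem_biUnion]
      refine ⟨p e, mem_univ _, ?_⟩
      rw [mem_biUnion]
      refine ⟨A e.1 - F (p e) e.1, mem_univ _, ?_⟩
      rw [hE]
      simp only [mem_filter, mem_univ, true_and, mem_shf]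
      exact he.2.symm
    refine (card_le_card h1).trans (card_biUnion_le.trans (sum_le_sum fun i _ => card_biUnion_le))
  have hEle : ∀ i c, (E i c).card ≤ (shf A (F i) c).card * (shf b (F i) c).card := by
    intro i c
    rw [← card_product]
    refine card_le_card fun e he => ?_
    rw [hE] at he
    simp only [mem_filter, mem_univ, true_and] at he
    rw [mem_product]
    exact he.2
  -- small classes
  have hsmall : ∀ i, T * ∑ c ∈ univ \ L i, (E i c).card ≤ 2 * N ^ 2 := by
    intro i
    rw [mul_sum]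
    calc ∑ c ∈ univ \ L i, T * (E i c).card
        ≤ ∑ c ∈ univ \ L i, (N * (shf A (F i) c).card + N * (shf b (F i) c).card) := by
          refine sum_le_sum fun c hc => ?_
          have hc' : ¬ (N ≤ T * (shf A (F i) c).card ∧ N ≤ T * (shf b (F i) c).card) := by
            intro h
            exact (mem_sdiff.1 hc).2 (mem_filter.2 ⟨mem_univ _, h⟩)
          have h3 := Nat.mul_le_mul_left T (hEle i c)
          rw [not_and_or, not_le, not_le] at hc'
          rcases hc' with h | h
          · have : T * ((shf A (F i) c).card * (shf b (F i) c).card) ≤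
                N * (shf b (F i) c).card := by
              rw [← mul_assoc]
              exact Nat.mul_le_mul_right _ h.le
            omega
          · have : T * ((shf A (F i) c).card * (shf b (F i) c).card) ≤
                N * (shf A (F i) c).card := by
              calc T * ((shf A (F i) c).card * (shf b (F i) c).card)
                  = (T * (shf b (F i) c).card) * (shf A (F i) c).card := by ring
                _ ≤ _ := Nat.mul_le_mul_right _ h.le
            omega
      _ ≤ ∑ c, (N * (shf A (F i) c).card + N * (shf b (F i) c).card) :=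
          sum_le_sum_of_subset (subset_univ _)
      _ = 2 * N ^ 2 := by
          rw [sum_add_distrib, ← mul_sum, ← mul_sum, sum_shf, sum_shf, ← hN]
          ring
  -- large classes
  have hlarge : ∀ i, 2 * ∑ c ∈ L i, (E i c).card ≤
      y * (∑ c ∈ L i, (shf A (F i) c).card + ∑ c ∈ L i, (shf b (F i) c).card) := by
    intro i
    refine two_min ((sum_le_sum fun c _ => hEle i c).trans (sum_mul_le _ _ _)) ?_
    refine le_trans ?_ (hp i)
    rw [← card_biUnion]
    · refine card_le_card fun e he => ?_
      rw [mem_biUnion] at he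
      obtain ⟨c, _, he⟩ := he
      rw [hE] at he
      simp only [mem_filter, mem_univ, true_and] at he
      exact mem_filter.2 ⟨mem_univ _, he.1⟩
    · intro c _ c' _ hcc
      simp only [Function.onFun]
      rw [disjoint_left]
      intro e he he'
      rw [hE] at he he'
      simp only [mem_filter, mem_univ, true_and, mem_shf] at he he'
      exact hcc (he.2.1.symm.trans he'.2.1)
  have hJ : ∀ B : V → G, (∀ i, ∀ c ∈ L i, N ≤ T * (shf B (F i) c).card) →
      ∑ i, ∑ c ∈ L i, (shf B (F i) c).card ≤ 2 * N := by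
    intro B hB
    rw [sum_sigma' univ L (fun i c => (shf B (F i) c).card)]
    have := johnson (univ.sigma L) (fun q => shf B (F q.1) q.2) T D hT (fun q hq => hB q.1 q.2
      (mem_sigma.1 hq).2) (fun q _ q' _ hqq => ?_) hD
    · exact this
    · exact shf_inter hF B (p := (q.1, q.2)) (p' := (q'.1, q'.2)) fun h => hqq (by
        obtain ⟨q1, q2⟩ := q
        obtain ⟨q1', q2'⟩ := q'
        simp only [Prod.mk.injEq] at h
        obtain ⟨rfl, rfl⟩ := h
        rfl)
  have hA := hJ A fun i c hc => (mem_filter.1 hc).2.1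
  have hb := hJ b fun i c hc => (mem_filter.1 hc).2.2
  have hlarge' : ∑ i, ∑ c ∈ L i, (E i c).card ≤ 2 * N * y := by
    have h3 : 2 * ∑ i, ∑ c ∈ L i, (E i c).card ≤ 2 * (2 * N * y) := by
      calc 2 * ∑ i, ∑ c ∈ L i, (E i c).card = ∑ i, 2 * ∑ c ∈ L i, (E i c).card := mul_sum _ _ _
        _ ≤ ∑ i, y * (∑ c ∈ L i, (shf A (F i) c).card + ∑ c ∈ L i, (shf b (F i) c).card) :=
            sum_le_sum fun i _ => hlarge i
        _ = y * (∑ i, ∑ c ∈ L i, (shf A (F i) c).card + ∑ i, ∑ c ∈ L i, (shf b (F i) c).card) := by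
            rw [← mul_sum, sum_add_distrib]
        _ ≤ y * (2 * N + 2 * N) := Nat.mul_le_mul_left _ (by omega)
        _ = _ := by ring
    omega
  have hsum : ∀ i, ∑ c, (E i c).card = ∑ c ∈ L i, (E i c).card + ∑ c ∈ univ \ L i, (E i c).card := by
    intro i
    rw [add_comm]
    exact (sum_sdiff (subset_univ (L i))).symm
  calc T * (sat F p A b).card ≤ T * ∑ i, ∑ c, (E i c).card := Nat.mul_le_mul_left _ hsat
    _ = T * ∑ i, ∑ c ∈ L i, (E i c).card + ∑ i, T * ∑ c ∈ univ \ L i, (E i c).card := by
        rw [sum_congr rfl fun i _ => hsum i, sum_add_distrib, mul_add, ← mul_sum]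
    _ ≤ T * (2 * N * y) + ∑ _i : I, 2 * N ^ 2 :=
        Nat.add_le_add (Nat.mul_le_mul_left _ hlarge') (sum_le_sum fun i _ => hsmall i)
    _ = _ := by rw [sum_const, card_univ, smul_eq_mul]

end Pool.Agent.Helper41.GM
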