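import Pool.Agent.Helper41.PM.Walks
import Pool.Agent.Helper41.GM.Code

/-!
# Mixtures of inputs accepted by a nondeterministic read-once branching program
-/

set_option autoImplicit false

open Finset

namespace Pool.Agent.Helper41.GM

open Pool.Agent.Helper41.PM

variable {X Al V : Type} {B : NBP X Al V}

/-- Cutting a walk into short segments. -/
theorem cut_le {w : V} (κ : ℕ) : ∀ (t : ℕ) {u : V} {l : List (X × Al)}, Walk B u w l →
    l.length ≤ (t + 1) * κ → ∃ (τ : ℕ → V) (ls : ℕ → List (X × Al)), τ 0 = u ∧ τ (t + 1) = w ∧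
      ∀ j, j < t + 1 → Walk B (τ j) (τ (j + 1)) (ls j) ∧ (ls j).length ≤ κ ∧
        ∀ q ∈ ls j, q ∈ l := by
  intro t
  induction t with
  | zero =>
    intro u l h hl
    refine ⟨fun j => if j = 0 then u else w, fun _ => l, rfl, rfl, fun j hj => ?_⟩
    obtain rfl : j = 0 := by omega
    exact ⟨h, by simpa using hl, fun q hq => hq⟩
  | succ t ih =>
    intro u l h hl
    obtain ⟨v, h1, h2⟩ := h.split (l.take κ) (l.drop κ) (List.take_append_drop κ l).symm
    obtain ⟨τ, ls, e1, e2, e3⟩ := ih h2 (by
      rw [List.length_drop]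
      have : (t + 1 + 1) * κ = (t + 1) * κ + κ := by ring
      omega)
    refine ⟨fun j => if j = 0 then u else τ (j - 1), fun j => if j = 0 then l.take κ else ls (j - 1),
      rfl, ?_, fun j hj => ?_⟩
    · show τ (t + 1 + 1 - 1) = w
      exact e2
    · rcases Nat.eq_zero_or_pos j with rfl | hj0
      · refine ⟨?_, ?_, ?_⟩
        · show Walk B u (τ 0) (l.take κ)
          rw [e1]
          exact h1
        · show (l.take κ).length ≤ κ
          rw [List.length_take]
          omega
        · intro q hq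
          exact List.mem_of_mem_take hq
      · obtain ⟨j, rfl⟩ := Nat.exists_eq_add_of_le' hj0
        obtain ⟨f1, f2, f3⟩ := e3 j (by omega)
        refine ⟨?_, ?_, ?_⟩
        · show Walk B (τ j) (τ (j + 1)) (ls j)
          exact f1
        · show (ls j).length ≤ κ
          exact f2
        · intro q hq
          exact List.mem_of_mem_drop (f3 q hq)

variable [DecidableEq X] [Fintype X] [Fintype V]

/-- **Mixtures.**  Among many accepted inputs there are `2 (t + 1)` different ones with an accepted mixture, whose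
parts have at most `κ` elements. -/
theorem exists_mixture (hB : B.ReadOnce) (t κ : ℕ) (hκ : 1 ≤ κ)
    (hX : Fintype.card X ≤ (t + 1) * κ) {ι : Type} [Fintype ι] (z : ι → X → Al)
    (hz : ∀ i, B.Accepts (z i))
    (hι : Fintype.card V ^ (t + 2) * (2 * (t + 1)) < Fintype.card ι) :
    ∃ (p : X → Fin (2 * (t + 1))) (a : Fin (2 * (t + 1)) → ι), Function.Injective a ∧
      (∀ j, (univ.filter (fun x => p x = j)).card ≤ κ) ∧ B.Accepts (fun x => z (a (p x)) x) := by
  classical
  choose l hw hT using hz
  have hlen : ∀ i, (l i).length ≤ (t + 1) * κ := by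
    intro i
    have h1 := (hB _ (hw i)).length_le_card
    rw [List.length_map] at h1
    exact h1.trans hX
  have hcut := fun i => cut_le κ t (hw i) (hlen i)
  choose τ ls e0 e1 e2 using hcut
  obtain ⟨σ, -, hσ⟩ := exists_lt_card_fiber_of_mul_lt_card_of_maps_to
    (s := (univ : Finset ι)) (t := (univ : Finset (Fin (t + 2) → V)))
    (f := fun i (j : Fin (t + 2)) => τ i j) (n := 2 * (t + 1)) (fun _ _ => mem_univ _) (by
      rw [card_univ, card_univ, Fintype.card_fun, Fintype.card_fin]
      exact hι)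
  -- different members of the fibre
  obtain ⟨Z, hZ, hZc⟩ := exists_subset_card_eq hσ.le
  obtain ⟨e⟩ : Nonempty (Fin (2 * (t + 1)) ≃ {i // i ∈ Z}) :=
    ⟨(Fintype.equivFinOfCardEq (by rw [Fintype.card_coe, hZc])).symm⟩
  set a : Fin (2 * (t + 1)) → ι := fun j => (e j).1 with ha
  have hainj : Function.Injective a := fun i j h => e.injective (Subtype.ext h)
  have haσ : ∀ j, (fun (k : Fin (t + 2)) => τ (a j) k) = σ := by
    intro j
    exact (mem_filter.1 (hZ (e j).2)).2
  set i₀ : ι := a ⟨0, by omega⟩ with hi₀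
  have heq : ∀ j (k : ℕ), k < t + 2 → τ (a j) k = τ i₀ k := by
    intro j k hk
    have h1 := congrFun ((haσ j).trans (haσ ⟨0, by omega⟩).symm) ⟨k, hk⟩
    exact h1
  -- the segments
  have hlt : ∀ k : ℕ, k < t + 1 → k < 2 * (t + 1) := fun k hk => by omega
  set L : ℕ → List (X × Al) := fun k => if h : k < t + 1 then ls (a ⟨k, hlt k h⟩) k else [] with hL
  have hLw : ∀ k, k < t + 1 → Walk B (τ i₀ k) (τ i₀ (k + 1)) (L k) := by
    intro k hk
    rw [hL]
    simp only [dif_pos hk]
    have h1 := (e2 (a ⟨k, hlt k hk⟩) k hk).1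
    rw [heq _ k (by omega), heq _ (k + 1) (by omega)] at h1
    exact h1
  have hdis := (join_disjoint hB (e0 i₀) (e1 i₀) hLw).2
  obtain ⟨ε⟩ : Nonempty (X ≃ Fin (Fintype.card X)) := ⟨Fintype.equivFin X⟩
  have hp : ∀ x : X, ∃ j : Fin (2 * (t + 1)),
      (∀ k, k < t + 1 → x ∈ (L k).map Prod.fst → j.val = k) ∧
      (j.val < t + 1 → x ∈ (L j.val).map Prod.fst) ∧
      (¬ j.val < t + 1 → j.val = t + 1 + (ε x).val / κ) := by
    intro x
    by_cases h : ∃ k, k < t + 1 ∧ x ∈ (L k).map Prod.fst
    · obtain ⟨k, hk, hx⟩ := h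
      refine ⟨⟨k, hlt k hk⟩, fun k' hk' hx' => ?_, fun _ => hx, fun h' => absurd hk h'⟩
      by_contra hne
      exact hdis k k' hk hk' hne x hx hx'
    · have h1 : (ε x).val / κ < t + 1 := by
        rw [Nat.div_lt_iff_lt_mul hκ]
        exact (ε x).2.trans_le hX
      refine ⟨⟨t + 1 + (ε x).val / κ, by omega⟩, fun k hk hx => absurd ⟨k, hk, hx⟩ h, fun h' => ?_,
        fun _ => rfl⟩
      exact absurd h' (not_lt.2 (Nat.le_add_right (t + 1) ((ε x).val / κ)))
  choose p hp1 hp2 hp3 using hp
  refine ⟨p, a, hainj, fun j => ?_, ?_⟩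
  · by_cases hj : j.val < t + 1
    · have h1 : univ.filter (fun x => p x = j) ⊆ ((L j.val).map Prod.fst).toFinset := by
        intro x hx
        rw [mem_filter] at hx
        rw [List.mem_toFinset, ← hx.2]
        exact hp2 x (by rw [hx.2]; exact hj)
      refine (card_le_card h1).trans ((List.toFinset_card_le _).trans ?_)
      rw [List.length_map, hL]
      simp only [dif_pos hj]
      exact (e2 _ _ hj).2.1
    · have h1 : (univ.filter (fun x => p x = j)).card ≤
          (Finset.Ico ((j.val - (t + 1)) * κ) ((j.val - (t + 1)) * κ + κ)).card := by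
        refine card_le_card_of_injOn (fun x => (ε x).val) ?_ ?_
        · intro x hx
          rw [mem_coe, mem_filter] at hx
          have h2 := hp3 x (by rw [hx.2]; exact hj)
          rw [hx.2] at h2
          have h3 : j.val - (t + 1) = (ε x).val / κ := by omega
          have h4 := Nat.div_add_mod' (ε x).val κ
          have h5 := Nat.mod_lt (ε x).val hκ
          rw [mem_coe, mem_Ico, h3]
          show (ε x).val / κ * κ ≤ (ε x).val ∧ (ε x).val < (ε x).val / κ * κ + κ
          exact ⟨by omega, by omega⟩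
        · intro x _ x' _ h
          exact ε.injective (Fin.ext h)
      rw [Nat.card_Ico] at h1
      omega
  · refine mix_accepts (τ := τ i₀) (t := t + 1) (e0 i₀) (e1 i₀) L hLw _ (fun k hk q hq => ?_)
    have h1 : (p q.1).val = k := hp1 q.1 k hk (List.mem_map_of_mem hq)
    have h2 : p q.1 = ⟨k, hlt k hk⟩ := Fin.ext h1
    rw [hL] at hq
    simp only [dif_pos hk] at hq
    show z (a (p q.1)) q.1 = q.2
    rw [h2]
    exact hT _ q ((e2 _ k hk).2.2 q hq)

end Pool.Agent.Helper41.GM
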